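import Pool.Agent.H82.RG6.CG1T

/-!
# Row E6CG2 of the board reg_modules (MP_2697e3_an): the inequality of Caccioppoli
-/

set_option autoImplicit false

namespace Pool.Agent.H82.RG6

open MeasureTheory Metric Set Filter Topology Pool.Agent.H87.SN Pool.Agent.H86.RG
open scoped ContDiff RealInnerProductSpace ENNReal

/-- the lemma of Fatou for real integrals -/
theorem fatou_real {α : Type*} [MeasurableSpace α] {μ : Measure α} (F : ℕ → α → ℝ) (G : α → ℝ)
    (B : ℕ → ℝ) (b : ℝ) (hF : ∀ k, Integrable (F k) μ) (hF0 : ∀ k x, 0 ≤ F k x)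
    (hG : Integrable G μ) (hlim : ∀ᵐ x ∂μ, Tendsto (fun k => F k x) atTop (𝓝 (G x)))
    (hB : ∀ k, ∫ x, F k x ∂μ ≤ B k) (hb : Tendsto B atTop (𝓝 b)) : ∫ x, G x ∂μ ≤ b := by
  have hB0 : ∀ k, 0 ≤ B k := fun k => (integral_nonneg (hF0 k)).trans (hB k)
  have hb0 : 0 ≤ b := ge_of_tendsto' hb hB0
  have hG0 : 0 ≤ᵐ[μ] G := by
    filter_upwards [hlim] with x hx
    exact ge_of_tendsto' hx fun k => hF0 k x
  rw [← ENNReal.ofReal_le_ofReal_iff hb0, ofReal_integral_eq_lintegral_ofReal hG hG0]
  calc ∫⁻ x, ENNReal.ofReal (G x) ∂μ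
      = ∫⁻ x, liminf (fun k => ENNReal.ofReal (F k x)) atTop ∂μ := by
        refine lintegral_congr_ae ?_
        filter_upwards [hlim] with x hx
        exact (ENNReal.tendsto_ofReal hx).liminf_eq.symm
    _ ≤ liminf (fun k => ∫⁻ x, ENNReal.ofReal (F k x) ∂μ) atTop :=
        lintegral_liminf_le' fun k => (hF k).aestronglyMeasurable.aemeasurable.ennreal_ofReal
    _ ≤ liminf (fun k => ENNReal.ofReal (B k)) atTop := by
        refine liminf_le_liminf (Eventually.of_forall fun k => ?_)
        rw [← ofReal_integral_eq_lintegral_ofReal (hF k) (Eventually.of_forall (hF0 k))]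
        exact ENNReal.ofReal_le_ofReal (hB k)
    _ = ENNReal.ofReal b := (ENNReal.tendsto_ofReal hb).liminf_eq

/-- continuity of a convolution with an integrable function -/
theorem cv_continuous {n : ℕ} {k g : E n → ℝ} (hk : Continuous k) (hc : HasCompactSupport k)
    (hg : Integrable g) : Continuous (cv k g) := by
  have h := HasCompactSupport.continuous_convolution_right (ContinuousLinearMap.mul ℝ ℝ) hc
    hg.locallyIntegrable hk
  refine h.congr fun x => ?_
  unfold cv
  rw [convolution_def]
  refine integral_congr_ae (Eventually.of_forall fun y => ?_)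
  simp [mul_comm]

theorem pf_CG2 (hKER : T_KER) (hDIL : T_DIL) (hLM : T_LM)
    (hCG1 : Pool.Agent.H82.RG6.T_CG1) : T_CG2 := by
  intro n m u D f x₀ R K o c η hn hR hK hKo hSol hf hu hη hη0
  obtain ⟨φ, ζ, hker⟩ := hKER n hn
  obtain ⟨hηs, hηc, hηt⟩ := hη
  -- the sequence of scales
  set tk : ℕ → ℝ := fun k => R / (k + 1) with htk
  have htpos : ∀ k, 0 < tk k := fun k => by simp only [htk]; positivity
  have htR : ∀ k, tk k ≤ R := fun k => by
    simp only [htk]
    exact div_le_self hR.le (by have := Nat.cast_nonneg (α := ℝ) k; linarith)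
  have ht0 : Tendsto tk atTop (𝓝 0) := tendsto_const_div_atTop_nhds_zero_nat R |>.comp
    (tendsto_add_atTop_nat 1) |>.congr fun k => by simp [htk]
  have ht : Tendsto tk atTop (𝓝[>] 0) :=
    tendsto_nhdsWithin_of_tendsto_nhds_of_eventually_within _ ht0 (Eventually.of_forall htpos)
  -- the dilated kernels
  have hd : ∀ k, ContDiff ℝ ∞ (dil φ (tk k)) ∧ (∀ x, tk k ≤ ‖x‖ → dil φ (tk k) x = 0) ∧
      ∫ x, dil φ (tk k) x = 1 := by
    intro k
    obtain ⟨h1, h2, -, h4, -⟩ := hDIL n φ (tk k) (htpos k) hker.sφ hker.zφ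
    exact ⟨h1, h2, h4.trans hker.one⟩
  have hdc : ∀ k, HasCompactSupport (dil φ (tk k)) := fun k =>
    HasCompactSupport.intro (isCompact_closedBall (0 : E n) (tk k)) fun x hx =>
      (hd k).2.1 x (by rw [mem_closedBall_zero_iff, not_le] at hx; exact hx.le)
  have hdi : ∀ k, Integrable (dil φ (tk k)) := fun k =>
    (hd k).1.continuous.integrable_of_hasCompactSupport (hdc k)
  have hdp : ∀ k x, 0 ≤ dil φ (tk k) x := fun k x => by
    unfold dil
    exact mul_nonneg (inv_nonneg.2 (pow_nonneg (htpos k).le _)) (hker.pos _)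
  -- the ball and the density
  set U : Set (E n) := ball x₀ (3 * R) with hU
  have hUm : MeasurableSet U := measurableSet_ball
  set μ : Measure (E n) := volume.restrict U with hμ
  have : IsFiniteMeasure μ := ⟨by rw [hμ, Measure.restrict_apply_univ]; exact measure_ball_lt_top⟩
  set S : E n → ℝ := fun x => ∑ a, ‖D a x‖ ^ 2 with hS
  have hS0 : ∀ x, 0 ≤ S x := fun x => Finset.sum_nonneg fun a _ => sq_nonneg _
  have hSi : Integrable S μ := by
    refine integrable_finsetSum _ fun a _ => ?_
    exact (hSol.iD a).integrable_norm_pow (by norm_num)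
  have hDi : ∀ a i, IntegrableOn (fun y => D a y i) U := by
    intro a i
    have h1 : Integrable (D a) μ := (hSol.iD a).integrable (by norm_num)
    exact ((EuclideanSpace.proj (𝕜 := ℝ) i).integrable_comp h1 : _)
  -- the cutoff function
  have hηz : ∀ x, x ∉ ball x₀ (2 * R) → η x = 0 := fun x hx => by
    by_contra h
    exact hx (hηt (subset_tsupport _ h))
  have h2R : ball x₀ (2 * R) ⊆ U := ball_subset_ball (by linarith)
  obtain ⟨M, hM⟩ : ∃ M : ℝ, ∀ x, η x ^ 2 ≤ M := by
    obtain ⟨C, hC⟩ := hηs.continuous.bounded_above_of_compact_support hηc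
    refine ⟨C ^ 2, fun x => ?_⟩
    have := hC x
    rw [Real.norm_eq_abs] at this
    rw [← sq_abs]
    exact pow_le_pow_left₀ (abs_nonneg _) this 2
  have hM0 : 0 ≤ M := (sq_nonneg _).trans (hM x₀)
  have hη2c : Continuous fun x => η x ^ 2 := hηs.continuous.pow 2
  have hη2s : HasCompactSupport fun x => η x ^ 2 := by
    refine hηc.mono ?_
    intro x hx h0
    exact hx (by show η x ^ 2 = 0; rw [h0]; ring)
  have hη2i : Integrable fun x => η x ^ 2 := hη2c.integrable_of_hasCompactSupport hη2s
  -- the functions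
  set Fk : ℕ → E n → ℝ := fun k x =>
    η x ^ 2 * ∑ a, ∑ i, cv (dil φ (tk k)) (fun y => D a y i) x ^ 2 with hFk
  set Jk : ℕ → E n → ℝ := fun k x => cv (dil φ (tk k)) (fun y => η y ^ 2) x * S x with hJk
  set G : ℝ := ∫ x, ∑ i, dd i η x ^ 2 with hG
  have hcvb : ∀ k x, ‖cv (dil φ (tk k)) (fun y => η y ^ 2) x‖ ≤ M := by
    intro k x
    have h1 : Integrable (fun y => dil φ (tk k) (x - y) * M) :=
      ((hdi k).comp_sub_left x).mul_const M
    refine (norm_integral_le_of_norm_le h1 (Eventually.of_forall fun y => ?_)).trans ?_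
    · rw [norm_mul, Real.norm_of_nonneg (hdp k _), Real.norm_of_nonneg (sq_nonneg _)]
      exact mul_le_mul_of_nonneg_left (hM y) (hdp k _)
    · rw [integral_mul_const, integral_sub_left_eq_self (dil φ (tk k)) volume x, (hd k).2.2, one_mul]
  have hcvz : ∀ k x, x ∉ U → cv (dil φ (tk k)) (fun y => η y ^ 2) x = 0 := by
    intro k x hx
    unfold cv
    rw [← integral_zero (E n) ℝ (μ := volume)]
    refine integral_congr_ae (Eventually.of_forall fun y => ?_)
    show dil φ (tk k) (x - y) * η y ^ 2 = 0
    by_cases hy : y ∈ ball x₀ (2 * R)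
    · have : tk k ≤ ‖x - y‖ := by
        by_contra h
        push Not at h
        apply hx
        rw [hU, mem_ball]
        rw [mem_ball] at hy
        have h3 := dist_triangle x y x₀
        rw [dist_eq_norm x y] at h3
        have := htR k
        linarith
      rw [(hd k).2.1 _ this, zero_mul]
    · rw [hηz y hy]; ring
  have hmain : ∀ k, ∫ x, Fk k x ∂μ ≤ 2 * K * o * (∫ x, Jk k x ∂μ) + 4 * o ^ 2 * G := by
    intro k
    have h := hCG1 n m φ ζ u D f x₀ R K o (tk k) c η hker hR (htpos k) (htR k) hK hSol hf hu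
      ⟨hηs, hηc, hηt⟩ hη0
    have e1 : ∫ x, Fk k x = ∫ x, Fk k x ∂μ := by
      rw [hμ, setIntegral_eq_integral_of_forall_compl_eq_zero]
      intro x hx
      simp only [hFk]
      rw [hηz x fun h => hx (h2R h)]
      ring
    have e2 : ∫ x, Jk k x = ∫ x, Jk k x ∂μ := by
      rw [hμ, setIntegral_eq_integral_of_forall_compl_eq_zero]
      intro x hx
      simp only [hJk]
      rw [hcvz k x hx, zero_mul]
    rw [← e1, ← e2]
    exact h
  have hI : ∫ x, η x ^ 2 * S x = ∫ x, η x ^ 2 * S x ∂μ := by
    rw [hμ, setIntegral_eq_integral_of_forall_compl_eq_zero]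
    intro x hx
    rw [hηz x fun h => hx (h2R h)]
    ring
  -- the limit of the right side
  have hJlim : Tendsto (fun k => ∫ x, Jk k x ∂μ) atTop (𝓝 (∫ x, η x ^ 2 * S x ∂μ)) := by
    refine tendsto_integral_of_dominated_convergence (fun x => M * S x) ?_ (hSi.const_mul M) ?_ ?_
    · intro k
      exact ((cv_continuous (hd k).1.continuous (hdc k) hη2i).aestronglyMeasurable).mul
        hSi.aestronglyMeasurable
    · intro k
      refine Eventually.of_forall fun x => ?_
      rw [norm_mul, Real.norm_of_nonneg (hS0 x)]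
      exact mul_le_mul_of_nonneg_right (hcvb k x) (hS0 x)
    · refine Eventually.of_forall fun x => ?_
      have h := (hLM n φ ζ hker (fun y => η y ^ 2) univ isOpen_univ hη2i.integrableOn).2
        hη2c.continuousOn x (mem_univ x)
      exact (h.comp ht).mul_const _
  -- the integrability of the left side
  have hFi : ∀ k, Integrable (Fk k) μ := by
    intro k
    have e : Fk k = fun x => η x ^ 2 *
        ∑ a, ∑ i, cv (dil φ (tk k)) (U.indicator fun y => D a y i) x ^ 2 := by
      funext x
      simp only [hFk]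
      by_cases hx : x ∈ ball x₀ (2 * R)
      · congr 1
        refine Finset.sum_congr rfl fun a _ => Finset.sum_congr rfl fun i _ => ?_
        congr 1
        unfold cv
        refine integral_congr_ae (Eventually.of_forall fun y => ?_)
        show dil φ (tk k) (x - y) * D a y i = dil φ (tk k) (x - y) * U.indicator (fun y => D a y i) y
        by_cases hy : y ∈ U
        · rw [indicator_of_mem hy]
        · have : tk k ≤ ‖x - y‖ := by
            by_contra h
            push Not at h
            apply hy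
            rw [hU, mem_ball]
            rw [mem_ball] at hx
            have h3 := dist_triangle y x x₀
            rw [dist_comm y x, dist_eq_norm x y] at h3
            have := htR k
            linarith
          rw [(hd k).2.1 _ this, zero_mul, zero_mul]
      · rw [hηz x hx]; ring
    rw [e]
    have hc2 : Continuous fun x => η x ^ 2 *
        ∑ a, ∑ i, cv (dil φ (tk k)) (U.indicator fun y => D a y i) x ^ 2 := by
      refine hη2c.mul (continuous_finsetSum _ fun a _ => continuous_finsetSum _ fun i _ => ?_)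
      exact (cv_continuous (hd k).1.continuous (hdc k)
        ((integrable_indicator_iff hUm).2 (hDi a i))).pow 2
    exact (hc2.integrable_of_hasCompactSupport hη2s.mul_right).restrict
  have hIi : Integrable (fun x => η x ^ 2 * S x) μ := by
    refine hSi.bdd_mul (c := M) hη2c.aestronglyMeasurable (Eventually.of_forall fun x => ?_)
    rw [Real.norm_of_nonneg (sq_nonneg _)]
    exact hM x
  have hFlim : ∀ᵐ x ∂μ, Tendsto (fun k => Fk k x) atTop (𝓝 (η x ^ 2 * S x)) := by
    have h : ∀ᵐ x ∂μ, ∀ a i, Tendsto (fun t : ℝ => cv (dil φ t) (fun y => D a y i) x) (𝓝[>] 0)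
        (𝓝 (D a x i)) := by
      rw [ae_all_iff]
      intro a
      rw [ae_all_iff]
      intro i
      exact (hLM n φ ζ hker (fun y => D a y i) U isOpen_ball (hDi a i)).1
    filter_upwards [h] with x hx
    simp only [hFk, hS]
    refine Tendsto.const_mul _ (tendsto_finsetSum _ fun a _ => ?_)
    rw [EuclideanSpace.norm_sq_eq]
    refine tendsto_finsetSum _ fun i _ => ?_
    rw [Real.norm_eq_abs, sq_abs]
    exact ((hx a i).comp ht).pow 2
  have hfin := fatou_real Fk (fun x => η x ^ 2 * S x)
    (fun k => 2 * K * o * (∫ x, Jk k x ∂μ) + 4 * o ^ 2 * G)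
    (2 * K * o * (∫ x, η x ^ 2 * S x ∂μ) + 4 * o ^ 2 * G) hFi
    (fun k x => mul_nonneg (sq_nonneg _)
      (Finset.sum_nonneg fun a _ => Finset.sum_nonneg fun i _ => sq_nonneg _))
    hIi hFlim hmain ((hJlim.const_mul _).add_const _)
  have hI0 : 0 ≤ ∫ x, η x ^ 2 * S x ∂μ :=
    integral_nonneg fun x => mul_nonneg (sq_nonneg _) (hS0 x)
  show ∫ x, η x ^ 2 * S x ≤ 8 * o ^ 2 * G
  rw [hI]
  nlinarith

end Pool.Agent.H82.RG6
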