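import Pool.Agent.H86.RG.Targets2

/-!
# Row E6INT of the board reg_modules (MP_2697e3_an): interpolation
-/

set_option autoImplicit false

namespace Pool.Agent.H82.RG6

open MeasureTheory Metric Set Filter Topology Pool.Agent.H87.SN Pool.Agent.H86.RG
open scoped ContDiff RealInnerProductSpace ENNReal

theorem sum_bv {n : ℕ} (v : E n) : v = ∑ i : Fin n, v i • (bv i : E n) := by
  ext j
  simp [bv, Pi.single_apply]

theorem norm_fderiv_le_of_dd {n : ℕ} (f : E n → ℝ) (x : E n) (M : ℝ)
    (h : ∀ i, |dd i f x| ≤ M) : ‖fderiv ℝ f x‖ ≤ n * M := by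
  by_cases hn : n = 0
  · subst hn
    have : fderiv ℝ f x = 0 := by
      apply ContinuousLinearMap.ext
      intro v
      rw [Subsingleton.elim v 0]
      simp
    rw [this]
    simp
  have hM : 0 ≤ M := (abs_nonneg _).trans (h ⟨0, Nat.pos_of_ne_zero hn⟩)
  refine ContinuousLinearMap.opNorm_le_bound _ (by positivity) ?_
  intro v
  have h1 : fderiv ℝ f x v = ∑ i : Fin n, v i * dd i f x := by
    conv_lhs => rw [sum_bv v]
    rw [map_sum]
    refine Finset.sum_congr rfl fun i _ => ?_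
    rw [map_smul, smul_eq_mul]
    rfl
  rw [h1]
  calc ‖∑ i : Fin n, v i * dd i f x‖ ≤ ∑ i : Fin n, ‖v‖ * M := by
        refine norm_sum_le_of_le _ fun i _ => ?_
        rw [norm_mul]
        exact mul_le_mul (PiLp.norm_apply_le v i) (by simpa using h i) (norm_nonneg _) (norm_nonneg _)
    _ = n * M * ‖v‖ := by
        simp
        ring

theorem pf_INT : T_INT := by
  intro n σ θ A t R x₀ f hθ hθ1 ht hA hf h0 h1 y hy z hz
  have hts : 0 < t ^ σ := Real.rpow_pos_of_pos ht _
  rcases eq_or_ne y z with hyz | hyz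
  · subst hyz
    simp [Real.zero_rpow hθ.ne']
  have hd : 0 < ‖y - z‖ := norm_pos_iff.2 (sub_ne_zero.2 hyz)
  set P : ℝ := (2 + n) * A * t ^ σ with hP
  have hn : (0 : ℝ) ≤ n := Nat.cast_nonneg n
  have hAt : 0 ≤ A * t ^ σ := by positivity
  have hP0 : 0 ≤ P := by positivity
  have ha : |f y - f z| ≤ P := by
    have e1 := h0 y hy
    have e2 := h0 z hz
    have e3 : |f y - f z| ≤ |f y| + |f z| := abs_sub _ _
    rw [hP]
    nlinarith
  have hb : |f y - f z| ≤ P * (‖y - z‖ / t) := by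
    have hb1 : ‖f y - f z‖ ≤ n * (A * t ^ (σ - 1)) * ‖y - z‖ :=
      (convex_ball x₀ R).norm_image_sub_le_of_norm_fderiv_le
        (fun x _ => (hf.differentiable (by simp)).differentiableAt)
        (fun x hx => norm_fderiv_le_of_dd f x _ (h1 x hx)) hz hy
    rw [Real.norm_eq_abs] at hb1
    refine hb1.trans ?_
    rw [Real.rpow_sub_one ht.ne', hP]
    have : (n : ℝ) * (A * (t ^ σ / t)) * ‖y - z‖ = n * (A * t ^ σ) * (‖y - z‖ / t) := by ring
    rw [this]
    have : (2 + (n : ℝ)) * A * t ^ σ * (‖y - z‖ / t) = (2 + n) * (A * t ^ σ) * (‖y - z‖ / t) := by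
      ring
    rw [this]
    have hq : 0 ≤ (A * t ^ σ) * (‖y - z‖ / t) := by positivity
    nlinarith
  have key : |f y - f z| ≤ P * (‖y - z‖ / t) ^ θ := by
    have hx : 0 < ‖y - z‖ / t := by positivity
    rcases le_total (‖y - z‖ / t) 1 with h | h
    · refine hb.trans (mul_le_mul_of_nonneg_left ?_ hP0)
      have := Real.rpow_le_rpow_of_exponent_ge hx h hθ1
      rwa [Real.rpow_one] at this
    · refine ha.trans (le_mul_of_one_le_right hP0 ?_)
      exact Real.one_le_rpow h hθ.le
  refine key.trans (le_of_eq ?_)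
  rw [hP, Real.div_rpow hd.le ht.le, Real.rpow_sub ht]
  ring

end Pool.Agent.H82.RG6
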