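import Pool.Agent.H86.RG.Targets2

/-!
# Target CG1 of the board reg_modules (MP_2697e3_an), with the parentheses
-/

set_option autoImplicit false

namespace Pool.Agent.H82.RG6

open MeasureTheory Metric Set Filter Topology Pool.Agent.H87.SN Pool.Agent.H86.RG
open scoped ContDiff RealInnerProductSpace ENNReal

/-- CG1: the smooth Caccioppoli inequality for mollified solutions -/
def T_CG1 : Prop := ∀ (n m : ℕ) (φ ζ : E n → ℝ) (u : E n → E m) (D : Fin m → E n → E n)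
  (f : E n → E m) (x₀ : E n) (R K o t : ℝ) (c : E m) (η : E n → ℝ), IsKer φ ζ → 0 < R →
  0 < t → t ≤ R → 0 ≤ K → Sol (ball x₀ (3 * R)) u D f →
  (∀ᵐ x ∂(volume.restrict (ball x₀ (3 * R))), ‖f x‖ ≤ K * ∑ a, ‖D a x‖ ^ 2) →
  (∀ x ∈ ball x₀ (3 * R), ‖u x - c‖ ≤ o) → Tst (ball x₀ (2 * R)) η → (∀ x, 0 ≤ η x) →
  ∫ x, η x ^ 2 * ∑ a, ∑ i, cv (dil φ t) (fun y => D a y i) x ^ 2 ≤
    2 * K * o * (∫ x, cv (dil φ t) (fun y => η y ^ 2) x * ∑ a, ‖D a x‖ ^ 2) +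
      4 * o ^ 2 * ∫ x, ∑ i, dd i η x ^ 2

end Pool.Agent.H82.RG6
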